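import Pool.Agent.Helper51_AWC.Irr

/-!
CC, module GEN: convolution of irreducible characters and counting of solutions of products of
commutators.
-/

open scoped BigOperators

noncomputable section

namespace Pool.Agent.Helper11_CC

open Pool.Agent.Helper51_AWC

section conv

variable {G : Type} [Group G] [Fintype G]

theorem conv_irr {θ χ : G → ℂ} (hθ : θ ∈ Irr G) (hχ : χ ∈ Irr G) (c : G) :
    ∑ h : G, θ h * χ (h⁻¹ * c) = (∑ h : G, χ h * θ h⁻¹) / χ 1 * χ c := by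
  obtain ⟨n, ρ, hρ, rfl⟩ := hχ
  have h1 := irr_one_ne (G := G) (χ := ρ.character) ⟨n, ρ, hρ, rfl⟩
  obtain ⟨s, hs⟩ := act_scalar ρ (fun g => θ g⁻¹) (fun g h => by
    have := irr_conj hθ g⁻¹ h
    rw [← this]
    congr 1
    group)
  have htr := act_trace ρ (fun g => θ g⁻¹)
  rw [hs] at htr
  have e1 : (LinearMap.trace ℂ (Fin n → ℂ)) (s • LinearMap.id) = s * ρ.character 1 := by
    rw [map_smul, smul_eq_mul]
    congr 1
    rw [Representation.character, map_one]
    rfl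
  rw [e1] at htr
  have e2 : s = (∑ h : G, ρ.character h * θ h⁻¹) / ρ.character 1 := by
    rw [eq_div_iff h1, htr]
    exact Finset.sum_congr rfl fun g _ => mul_comm _ _
  have e3 : (LinearMap.trace ℂ (Fin n → ℂ)) (act ρ (fun g => θ g⁻¹) * ρ c) =
      ∑ h : G, θ h * ρ.character (h⁻¹ * c) := by
    rw [act, Finset.sum_mul, map_sum]
    rw [← Equiv.sum_comp (Equiv.inv G)]
    refine Finset.sum_congr rfl fun h _ => ?_
    rw [Equiv.inv_apply, inv_inv, smul_mul_assoc, ← map_mul, map_smul, smul_eq_mul]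
    rfl
  rw [← e3, hs, ← e2]
  rw [smul_mul_assoc, map_smul, smul_eq_mul]
  rfl

theorem conv_self {χ : G → ℂ} (hχ : χ ∈ Irr G) (c : G) :
    ∑ h : G, χ h * χ (h⁻¹ * c) = Fintype.card G / χ 1 * χ c := by
  rw [conv_irr hχ hχ, irr_orth_self hχ]

theorem conv_ne {θ χ : G → ℂ} (hθ : θ ∈ Irr G) (hχ : χ ∈ Irr G) (h : θ ≠ χ) (c : G) :
    ∑ h : G, θ h * χ (h⁻¹ * c) = 0 := by
  rw [conv_irr hθ hχ, irr_orth_ne hχ hθ (Ne.symm h), zero_div, zero_mul]

end conv

section count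

variable {G : Type} [Group G] [Finite G]

theorem count_succ {A B : Type} [Finite A] [Finite B] (F : A → G) (P : B → G) (c : G) :
    ((Nat.card {x : A × B // F x.1 * P x.2 = c} : ℕ) : ℂ) =
      ∑ᶠ h : G, ((Nat.card {a : A // F a = h} : ℕ) : ℂ) *
        ((Nat.card {b : B // P b = h⁻¹ * c} : ℕ) : ℂ) := by
  have e : {x : A × B // F x.1 * P x.2 = c} ≃
      (Σ h : G, {a : A // F a = h} × {b : B // P b = h⁻¹ * c}) :=
    { toFun := fun x => ⟨F x.1.1, ⟨x.1.1, rfl⟩, ⟨x.1.2, eq_inv_mul_of_mul_eq x.2⟩⟩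
      invFun := fun y => ⟨(y.2.1.1, y.2.2.1), by
        rw [y.2.1.2, y.2.2.2]
        group⟩
      left_inv := fun x => rfl
      right_inv := by
        rintro ⟨h, ⟨a, rfl⟩, ⟨b, hb⟩⟩
        rfl }
  haveI := Fintype.ofFinite G
  rw [Nat.card_congr e, Nat.card_sigma, finsum_eq_sum_of_fintype, Nat.cast_sum]
  refine Finset.sum_congr rfl fun h _ => ?_
  rw [Nat.card_prod, Nat.cast_mul]

end count

end Pool.Agent.Helper11_CC
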