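import Pool.Agent.Helper98_CC.Stmts
import Pool.Agent.Helper11_CC.GenA

/-!
CC, module GEN: the number of solutions of a product of commutators.
-/

open scoped BigOperators

noncomputable section

namespace Pool.Agent.Helper11_CC

open Pool.Agent.Helper51_AWC Pool.Agent.Helper98_CC

theorem commg_one {G : Type} [Group G] (c : G) :
    commg 1 c = Nat.card {p : G × G // p.1 * p.2 * p.1⁻¹ * p.2⁻¹ = c} := by
  unfold commg
  refine Nat.card_congr ((Equiv.funUnique (Fin 1) (G × G)).subtypeEquiv fun p => ?_)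
  simp

theorem commg_succ {G : Type} [Group G] [Finite G] (g : ℕ) (c : G) :
    ((commg (g + 1) c : ℕ) : ℂ) =
      ∑ᶠ h : G, ((Nat.card {p : G × G // p.1 * p.2 * p.1⁻¹ * p.2⁻¹ = h} : ℕ) : ℂ) *
        ((commg g (h⁻¹ * c) : ℕ) : ℂ) := by
  have h := count_succ (A := G × G) (B := Fin g → G × G)
    (fun p => p.1 * p.2 * p.1⁻¹ * p.2⁻¹)
    (fun q => (List.ofFn fun i => (q i).1 * (q i).2 * (q i).1⁻¹ * (q i).2⁻¹).prod) c
  refine Eq.trans (congrArg Nat.cast ?_) h
  unfold commg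
  refine Nat.card_congr ((Fin.consEquiv (fun _ => G × G)).symm.subtypeEquiv fun p => ?_)
  rw [List.ofFn_succ, List.prod_cons]
  rfl

theorem genus (frb : FrobStmt) : GenusStmt := by
  intro G _ _ g hg
  have hfin : (Irr G).Finite := by
    haveI := Fintype.ofFinite G
    exact irr_finite'
  haveI := Fintype.ofFinite G
  induction g, hg using Nat.le_induction with
  | base =>
    intro c
    rw [commg_one, frb]
    simp
  | succ g hg ih =>
    intro c
    obtain ⟨k, rfl⟩ : ∃ k, g = k + 1 := ⟨g - 1, by omega⟩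
    rw [commg_succ, finsum_eq_sum_of_fintype]
    have e1 : 2 * (k + 1) - 1 = 2 * k + 1 := by omega
    have e2 : 2 * (k + 1 + 1) - 1 = 2 * k + 3 := by omega
    rw [e2]
    rw [e1] at ih
    have s1 : ∀ F : (G → ℂ) → ℂ, ∑ᶠ (χ : G → ℂ) (_ : χ ∈ Irr G), F χ =
        ∑ χ ∈ hfin.toFinset, F χ := fun F => finsum_mem_eq_finite_toFinset_sum F hfin
    have s0 : ∀ h : G, ((Nat.card {p : G × G // p.1 * p.2 * p.1⁻¹ * p.2⁻¹ = h} : ℕ) : ℂ) =
        (Nat.card G : ℂ) * ∑ θ ∈ hfin.toFinset, θ h / θ 1 := fun h => by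
      rw [frb G h, s1]
    simp only [s0, ih, s1]
    have s2 : ∀ h : G, ((Nat.card G : ℂ) * ∑ θ ∈ hfin.toFinset, θ h / θ 1) *
        ((Nat.card G : ℂ) ^ (2 * k + 1) *
          ∑ χ ∈ hfin.toFinset, χ (h⁻¹ * c) / χ 1 ^ (2 * k + 1)) =
        (Nat.card G : ℂ) ^ (2 * k + 2) * ∑ θ ∈ hfin.toFinset, ∑ χ ∈ hfin.toFinset,
          (θ h * χ (h⁻¹ * c)) * (1 / (θ 1 * χ 1 ^ (2 * k + 1))) := by
      intro h
      rw [mul_mul_mul_comm, Finset.sum_mul_sum]
      congr 1
      · ring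
      · refine Finset.sum_congr rfl fun θ _ => Finset.sum_congr rfl fun χ _ => ?_
        rw [div_mul_div_comm, mul_one_div]
    simp only [s2]
    rw [← Finset.mul_sum, Finset.sum_comm]
    have s3 : ∀ θ ∈ hfin.toFinset, ∑ h : G, ∑ χ ∈ hfin.toFinset,
        (θ h * χ (h⁻¹ * c)) * (1 / (θ 1 * χ 1 ^ (2 * k + 1))) =
        (Nat.card G : ℂ) * (θ c / θ 1 ^ (2 * k + 3)) := by
      intro θ hθ
      have hθ' : θ ∈ Irr G := hfin.mem_toFinset.1 hθ
      have h1 := irr_one_ne hθ'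
      rw [Finset.sum_comm, Finset.sum_eq_single θ]
      · rw [← Finset.sum_mul, conv_self hθ', Nat.card_eq_fintype_card]
        field_simp
        ring
      · intro χ hχ hne
        rw [← Finset.sum_mul, conv_ne hθ' (hfin.mem_toFinset.1 hχ) (Ne.symm hne), zero_mul]
      · intro h
        exact absurd hθ h
    rw [Finset.sum_congr rfl s3, ← Finset.mul_sum, ← mul_assoc, ← pow_succ]

end Pool.Agent.Helper11_CC
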